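import Pool.Agent.Q227.GT.Main

/-!
# MP_013ca9_lc, Q1: yes

For every fixed alphabet size `d ≥ 2` there is a time-consistent estimator, computable exactly
(as a fraction of two binary integers) in polynomial time, whose regret against the triple uniform
Good-Turing family is at most `2 ln (n + 2)` for all `n`.
-/

namespace Pool.Agent.Results.MP_013ca9_lc.GoodTuringOnline

open Pool.Agent.Q227.GT

theorem result (d : ℕ) (hd : 2 ≤ d) : ∃ Q : List (Fin d) → ℝ,
    TimeConsistent Q ∧ ExactPolyTime Q ∧ (∀ x, 0 < Q x) ∧
    ∀ n : ℕ, regret Q n ≤ 2 * Real.log (n + 2) :=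
  main d hd

end Pool.Agent.Results.MP_013ca9_lc.GoodTuringOnline
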